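import Pool.Agent.N176.SH.Stm
import Pool.Agent.N123.OW.DS

/-!
# Shifted digits: the sum over the last digits (project SH, part DS)
-/

set_option autoImplicit false

namespace Pool.Agent.N286.SH

open Finset
open Pool.Agent.N176.SH

namespace DSAux

variable {c : ℕ → ℤ} {b t : ℕ}

theorem deg_zero (hc : ∀ p, c p = 0) (p q n : ℕ) :
    Deg c b t p q n ↔ Pool.Agent.N176.OW.Deg b t p q n := by
  unfold Deg Pool.Agent.N176.OW.Deg
  rw [hc p, hc q, add_zero, add_zero]
  norm_cast

theorem run_zero (hc : ∀ p, c p = 0) (p n : ℕ) : run c b t p n = Pool.Agent.N176.OW.run b t p n := by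
  unfold run Pool.Agent.N176.OW.run
  congr 1
  exact Finset.filter_congr fun q _ => deg_zero hc p q n

theorem refl_aux {B K u v w : ℕ} (hv : v < B) (hK : K = u + w + 1) :
    (K * B - 1 - (u * B + v)) / B = w := by
  have h4 : K * B - 1 - (u * B + v) = (B - 1 - v) + B * w := by
    have h5 : K * B = u * B + B * w + B := by
      rw [hK]
      ring
    omega
  rw [h4, Nat.add_mul_div_left _ _ (by omega), Nat.div_eq_of_lt (by omega), zero_add]

/-- division of the reflected number -/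
theorem refl_div (hb : 2 ≤ b) {N e r : ℕ} (he : e ≤ N) (hr : r < b ^ N) :
    (((b ^ N - 1 - r) / b ^ e : ℕ) : ℤ) = (b : ℤ) ^ (N - e) - 1 - ((r / b ^ e : ℕ) : ℤ) := by
  have hbe : 0 < b ^ e := by positivity
  have hNe : b ^ N = b ^ (N - e) * b ^ e := by rw [← pow_add, Nat.sub_add_cancel he]
  have h1 : r / b ^ e < b ^ (N - e) := by
    rw [Nat.div_lt_iff_lt_mul hbe, ← hNe]
    exact hr
  have h2 : (b ^ N - 1 - r) / b ^ e = b ^ (N - e) - 1 - r / b ^ e := by
    obtain ⟨w, hw⟩ := Nat.exists_eq_add_of_lt h1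
    have h3 : b ^ (N - e) - 1 - r / b ^ e = w := by omega
    have h4 : r = (r / b ^ e) * b ^ e + r % b ^ e := by
      rw [mul_comm]
      exact (Nat.div_add_mod r (b ^ e)).symm
    have h5 := refl_aux (B := b ^ e) (K := b ^ (N - e)) (u := r / b ^ e) (v := r % b ^ e) (w := w)
      (Nat.mod_lt _ hbe) hw
    rw [← h4, ← hNe] at h5
    rw [h3, h5]
  rw [h2]
  have h3 : 1 ≤ b ^ (N - e) := Nat.one_le_pow _ _ (by omega)
  rw [Nat.cast_sub (by omega), Nat.cast_sub h3]
  push_cast
  ring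

theorem deg_one (hb : 2 ≤ b) (hc : ∀ p, c p = 1) {p1 p q r : ℕ} (hp1 : p1 ≤ p) (hpq : p ≤ q)
    (hq : q ≤ t) (hr : r < b ^ (t - p1)) :
    Deg c b t p q r ↔ Pool.Agent.N176.OW.Deg b t p q (b ^ (t - p1) - 1 - r) := by
  have e1 := refl_div hb (N := t - p1) (e := t - q) (by omega) hr
  have e2 := refl_div hb (N := t - p1) (e := t - p) (by omega) hr
  have h1 : t - p1 - (t - q) = q - p1 := by omega
  have h2 : t - p1 - (t - p) = p - p1 := by omega
  rw [h1] at e1
  rw [h2] at e2
  have h3 : (b : ℤ) ^ (q - p1) = (b : ℤ) ^ (q - p) * (b : ℤ) ^ (p - p1) := by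
    rw [← pow_add]
    congr 1
    omega
  have h4 : Pool.Agent.N176.OW.Deg b t p q (b ^ (t - p1) - 1 - r) ↔
      (((b ^ (t - p1) - 1 - r) / b ^ (t - q) : ℕ) : ℤ) =
        (b : ℤ) ^ (q - p) * (((b ^ (t - p1) - 1 - r) / b ^ (t - p) : ℕ) : ℤ) := by
    unfold Pool.Agent.N176.OW.Deg
    norm_cast
  rw [h4, e1, e2, h3]
  unfold Deg
  rw [hc p, hc q]
  constructor
  · intro h
    linear_combination -h
  · intro h
    linear_combination -h

theorem run_one (hb : 2 ≤ b) (hc : ∀ p, c p = 1) {p1 p r : ℕ} (hp1 : p1 ≤ p)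
    (hr : r < b ^ (t - p1)) :
    run c b t p r = Pool.Agent.N176.OW.run b t p (b ^ (t - p1) - 1 - r) := by
  unfold run Pool.Agent.N176.OW.run
  congr 1
  refine Finset.filter_congr fun q hq => ?_
  rw [Finset.mem_Ioc] at hq
  exact deg_one hb hc hp1 hq.1.le hq.2 hr

theorem no_deg (hb : 2 ≤ b) {A : ℕ} (hc : ∀ p ≥ A, ∀ q > p, ∀ r : ℤ, 0 ≤ r →
    r < (b : ℤ) ^ (q - p) → r + c q ≠ (b : ℤ) ^ (q - p) * c p) {p q : ℕ} (hp : A ≤ p) (hpq : p < q)
    (hq : q ≤ t) (r : ℕ) : ¬ Deg c b t p q r := by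
  intro hd
  have h1 : r / b ^ (t - p) = r / b ^ (t - q) / b ^ (q - p) := by
    rw [Nat.div_div_eq_div_mul, ← pow_add]
    congr 2
    omega
  have hpos : 0 < b ^ (q - p) := by positivity
  have h2 : r / b ^ (t - q) = b ^ (q - p) * (r / b ^ (t - p)) + r / b ^ (t - q) % b ^ (q - p) := by
    rw [h1]
    exact (Nat.div_add_mod _ _).symm
  have h3 : r / b ^ (t - q) % b ^ (q - p) < b ^ (q - p) := Nat.mod_lt _ hpos
  refine hc p hp q hpq ((r / b ^ (t - q) % b ^ (q - p) : ℕ) : ℤ) (Int.natCast_nonneg _)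
    (by exact_mod_cast h3) ?_
  unfold Deg at hd
  rw [h2] at hd
  push_cast at hd
  push_cast
  linear_combination hd

end DSAux

open DSAux in
/-- Part DS: the sum over the last digits. -/
theorem ds_of (h0 : Pool.Agent.N176.OW.S_DS) : S_DS := by
  intro b A c hok s hs0 hs1 t F hF p1 hp1 hmin
  have hb := hok.hb
  rcases hok.deg with hc | hc | hc
  · have h := h0 b hb s hs0 hs1 t F (fun p hp => (hF p hp).2) p1 hp1 hmin
    refine le_trans (le_of_eq ?_) h
    refine Finset.sum_congr ?_ fun r _ => Finset.prod_congr rfl fun p _ => ?_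
    · ext r
      simp only [Finset.mem_filter]
      refine and_congr_right fun _ => ?_
      constructor
      · intro h p hp q hq hpq hd
        exact h p hp q hq hpq ((deg_zero hc p q r).2 hd)
      · intro h p hp q hq hpq hd
        exact h p hp q hq hpq ((deg_zero hc p q r).1 hd)
    · rw [run_zero hc]
  · have h := h0 b hb s hs0 hs1 t F (fun p hp => (hF p hp).2) p1 hp1 hmin
    refine le_trans (le_of_eq ?_) h
    have hND : ∀ r < b ^ (t - p1), (∀ p ∈ F, ∀ q ∈ F, p < q → ¬ Deg c b t p q r) ↔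
        ∀ p ∈ F, ∀ q ∈ F, p < q →
          ¬ Pool.Agent.N176.OW.Deg b t p q (b ^ (t - p1) - 1 - r) := by
      intro r hr
      constructor
      · intro h p hp q hq hpq hd
        exact h p hp q hq hpq ((deg_one hb hc (hmin p hp) hpq.le (hF q hq).2 hr).2 hd)
      · intro h p hp q hq hpq hd
        exact h p hp q hq hpq ((deg_one hb hc (hmin p hp) hpq.le (hF q hq).2 hr).1 hd)
    refine Finset.sum_nbij' (fun r => b ^ (t - p1) - 1 - r) (fun r => b ^ (t - p1) - 1 - r)
      ?_ ?_ ?_ ?_ ?_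
    · intro r hr
      rw [Finset.mem_filter, Finset.mem_range] at hr ⊢
      exact ⟨by omega, (hND r hr.1).1 hr.2⟩
    · intro r hr
      rw [Finset.mem_filter, Finset.mem_range] at hr ⊢
      have h1 : b ^ (t - p1) - 1 - r < b ^ (t - p1) := by omega
      refine ⟨h1, (hND _ h1).2 ?_⟩
      have h2 : b ^ (t - p1) - 1 - (b ^ (t - p1) - 1 - r) = r := by omega
      rw [h2]
      exact hr.2
    · intro r hr
      rw [Finset.mem_filter, Finset.mem_range] at hr
      omega
    · intro r hr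
      rw [Finset.mem_filter, Finset.mem_range] at hr
      omega
    · intro r hr
      rw [Finset.mem_filter, Finset.mem_range] at hr
      refine Finset.prod_congr rfl fun p hp => ?_
      rw [run_one hb hc (hmin p hp) hr.1]
  · have hrun : ∀ p ∈ F, ∀ r, run c b t p r = 0 := by
      intro p hp r
      unfold run
      rw [Finset.card_eq_zero, Finset.filter_eq_empty_iff]
      intro q hq
      rw [Finset.mem_Ioc] at hq
      exact no_deg hb hc (hF p hp).1 hq.1 hq.2 r
    have h1 : ∀ r ∈ (range (b ^ (t - p1))).filter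
        (fun r => ∀ p ∈ F, ∀ q ∈ F, p < q → ¬ Deg c b t p q r),
        ∏ p ∈ F, ((1 + s) ^ (1 + run c b t p r) - 1) = s ^ F.card := by
      intro r _
      rw [← Finset.prod_const]
      refine Finset.prod_congr rfl fun p hp => ?_
      rw [hrun p hp r]
      ring
    rw [Finset.sum_congr rfl h1, Finset.sum_const, nsmul_eq_mul]
    have h2 : (((range (b ^ (t - p1))).filter
        (fun r => ∀ p ∈ F, ∀ q ∈ F, p < q → ¬ Deg c b t p q r)).card : ℝ) ≤ (b : ℝ) ^ (t - p1) := by
      have h3 := Finset.card_filter_le (range (b ^ (t - p1)))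
        (fun r => ∀ p ∈ F, ∀ q ∈ F, p < q → ¬ Deg c b t p q r)
      rw [Finset.card_range] at h3
      exact_mod_cast h3
    have h3 : s ^ F.card ≤ (4 * s) ^ F.card := pow_le_pow_left₀ hs0 (by linarith) _
    calc _ ≤ (b : ℝ) ^ (t - p1) * (4 * s) ^ F.card :=
          mul_le_mul h2 h3 (by positivity) (by positivity)
      _ = _ := by ring

/-- Part DS: the sum over the last digits. -/
theorem ds : S_DS := ds_of Pool.Agent.N123.OW.ds

end Pool.Agent.N286.SH
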